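import Pool.Agent.Helper21.PW.Wgt

/-!
PW: smoothness and support of `Pg g v`, null sets, bounds of the weight.
-/

set_option autoImplicit false

namespace Pool.Agent.Helper21.PW

open MeasureTheory Filter
open Pool.Agent.Helper95.PW

theorem dv_cd {n : ℕ} (k : Fin n) (i : Fin 3) {v : Cf n → ℝ} (hv : ContDiff ℝ (⊤ : ℕ∞) v) :
    ContDiff ℝ (⊤ : ℕ∞) (dv k i v) :=
  (hv.fderiv_right (m := (⊤ : ℕ∞)) (by simp)).clm_apply contDiff_const

theorem pd_cd (i : Fin 3) {g : R3 → ℝ} (hg : ContDiff ℝ (⊤ : ℕ∞) g) :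
    ContDiff ℝ (⊤ : ℕ∞) (pd i g) :=
  (hg.fderiv_right (m := (⊤ : ℕ∞)) (by simp)).clm_apply contDiff_const

theorem lap_cd {g : R3 → ℝ} (hg : ContDiff ℝ (⊤ : ℕ∞) g) : ContDiff ℝ (⊤ : ℕ∞) (lap g) := by
  unfold lap
  exact ContDiff.sum fun i _ => pd_cd i (pd_cd i hg)

theorem cp_cd {n : ℕ} (k : Fin n) {h : R3 → ℝ} (hh : ContDiff ℝ (⊤ : ℕ∞) h) :
    ContDiff ℝ (⊤ : ℕ∞) (fun x : Cf n => h (x k)) :=
  hh.comp (contDiff_apply ℝ R3 k)

theorem Pg_cd {n : ℕ} {g : R3 → ℝ} {v : Cf n → ℝ} (hg : ContDiff ℝ (⊤ : ℕ∞) g)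
    (hv : ContDiff ℝ (⊤ : ℕ∞) v) : ContDiff ℝ (⊤ : ℕ∞) (Pg g v) := by
  unfold Pg
  refine ContDiff.sum fun k _ => ?_
  refine ContDiff.add (ContDiff.sum fun i _ => (cp_cd k (pd_cd i hg)).mul (dv_cd k i hv)) ?_
  exact ((cp_cd k (lap_cd hg)).div_const 2).mul hv

theorem dv_out {n : ℕ} (k : Fin n) (i : Fin 3) {v : Cf n → ℝ} {x : Cf n} (hx : x ∉ tsupport v) :
    dv k i v x = 0 := by
  unfold dv
  rw [fderiv_of_notMem_tsupport ℝ hx]
  rfl

theorem Pg_cs {n : ℕ} (g : R3 → ℝ) {v : Cf n → ℝ} (hc : HasCompactSupport v) :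
    HasCompactSupport (Pg g v) := by
  refine HasCompactSupport.intro hc.isCompact fun x hx => ?_
  unfold Pg
  have h0 : v x = 0 := image_eq_zero_of_notMem_tsupport hx
  simp only [h0, dv_out _ _ hx, mul_zero, Finset.sum_const_zero, add_zero]

/-- hyperplanes are null sets -/
theorem null_lin {n : ℕ} (L : Cf n →ₗ[ℝ] ℝ) (hL : L ≠ 0) : ∀ᵐ x : Cf n, L x ≠ 0 := by
  have h : (volume : Measure (Cf n)) (LinearMap.ker L : Set (Cf n)) = 0 := by
    apply Measure.addHaar_submodule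
    intro h
    exact hL (LinearMap.ker_eq_top.1 h)
  rw [ae_iff]
  refine measure_mono_null (fun x hx => ?_) h
  simpa using hx

/-- first coordinate of electron `k` -/
def cf0 {n : ℕ} (k : Fin n) : Cf n →ₗ[ℝ] ℝ :=
  (LinearMap.proj (R := ℝ) (φ := fun _ : Fin 3 => ℝ) 0).comp
    (LinearMap.proj (R := ℝ) (φ := fun _ : Fin n => R3) k)

theorem cf0_apply {n : ℕ} (k : Fin n) (x : Cf n) : cf0 k x = x k 0 := rfl

theorem null_zero {n : ℕ} (k : Fin n) : ∀ᵐ x : Cf n, x k ≠ 0 := by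
  have h := null_lin (n := n) (cf0 k) (by
    intro h
    have h2 := LinearMap.congr_fun h (Pi.single k (Pi.single 0 1))
    rw [cf0_apply] at h2
    simp at h2)
  filter_upwards [h] with x hx h0
  apply hx
  rw [cf0_apply, h0]
  rfl

theorem null_diag {n : ℕ} (k l : Fin n) (hkl : k ≠ l) : ∀ᵐ x : Cf n, x k ≠ x l := by
  have h := null_lin (n := n) (cf0 k - cf0 l) (by
    intro h
    have h2 := LinearMap.congr_fun h (Pi.single k (Pi.single 0 1))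
    rw [LinearMap.sub_apply, cf0_apply, cf0_apply] at h2
    simp [hkl.symm] at h2)
  filter_upwards [h] with x hx h0
  apply hx
  rw [LinearMap.sub_apply, cf0_apply, cf0_apply, h0, sub_self]

theorem nr_pos {y : R3} (hy : y ≠ 0) : 0 < nr y := by
  unfold nr
  apply Real.sqrt_pos.2
  by_contra h
  apply hy
  have h0 : y 0 ^ 2 = 0 := by nlinarith [sq_nonneg (y 0), sq_nonneg (y 1), sq_nonneg (y 2)]
  have h1 : y 1 ^ 2 = 0 := by nlinarith [sq_nonneg (y 0), sq_nonneg (y 1), sq_nonneg (y 2)]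
  have h2 : y 2 ^ 2 = 0 := by nlinarith [sq_nonneg (y 0), sq_nonneg (y 1), sq_nonneg (y 2)]
  funext i
  fin_cases i
  · simpa using h0
  · simpa using h1
  · simpa using h2

theorem RP_add {s : ℝ} (hs : 0 < s) (p q : ℝ) (y : R3) : RP s p y * RP s q y = RP s (p + q) y := by
  unfold RP
  rw [← Real.rpow_add (rr_pos hs y)]

theorem RP_half_sq {s : ℝ} (hs : 0 < s) (y : R3) : RP s (-(1 / 2)) y ^ 2 = (rr s y)⁻¹ := by
  rw [pow_two, RP_add hs]
  unfold RP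
  norm_num
  rw [Real.rpow_neg_one]

/-- `|∇ w| <= 1` -/
theorem grd_wt {s : ℝ} (hs : 0 < s) (y : R3) : ∑ i, pd i (wt s) y ^ 2 ≤ 1 := by
  rw [Fin.sum_univ_three]
  simp only [pd_wt hs, mul_pow, RP_half_sq hs]
  rw [← add_mul, ← add_mul, ← div_eq_mul_inv, div_le_one (rr_pos hs y)]
  unfold rr
  nlinarith [sq_nonneg s]

theorem lap_wt_sq {s : ℝ} (hs : 0 < s) (y : R3) : lap (wt s) y ^ 2 ≤ 9 * (rr s y)⁻¹ := by
  rw [lap_wt hs]
  have h1 := RP_pos hs (-(1 / 2)) y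
  have h3 := RP_pos hs (-(3 / 2)) y
  have h := RP_sub_one hs (-(1 / 2)) y
  have e : (-(1 / 2) - 1 : ℝ) = -(3 / 2) := by norm_num
  rw [e] at h
  have h4 : s ^ 2 * RP s (-(3 / 2)) y ≤ RP s (-(1 / 2)) y := by
    rw [← h]
    apply mul_le_mul_of_nonneg_right _ h3.le
    unfold rr
    nlinarith [sq_nonneg (y 0), sq_nonneg (y 1), sq_nonneg (y 2)]
  have h5 : 0 ≤ s ^ 2 * RP s (-(3 / 2)) y := by positivity
  rw [← RP_half_sq hs]
  have h6 : 2 * RP s (-(1 / 2)) y + s ^ 2 * RP s (-(3 / 2)) y ≤ 3 * RP s (-(1 / 2)) y := by linarith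
  have h7 : 0 ≤ 2 * RP s (-(1 / 2)) y + s ^ 2 * RP s (-(3 / 2)) y := by positivity
  nlinarith

theorem rr_ge (s : ℝ) {y : R3} (hy : y ≠ 0) : (rr s y)⁻¹ ≤ 1 / nr y ^ 2 := by
  rw [← one_div]
  have h := nr_pos hy
  apply one_div_le_one_div_of_le (by positivity)
  rw [nr_sq]
  unfold rr
  nlinarith [sq_nonneg s]

end Pool.Agent.Helper21.PW
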