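import Pool.Agent.Helper2.PW.IBP

/-!
PW: calculus of `dv` and `pd`; powers of `|y|^2 + s^2`.
-/

set_option autoImplicit false

namespace Pool.Agent.Helper21.PW

open MeasureTheory Filter
open Pool.Agent.Helper95.PW

/-- `|y|^2 + s^2` -/
noncomputable def rr (s : ℝ) (y : R3) : ℝ := y 0 ^ 2 + y 1 ^ 2 + y 2 ^ 2 + s ^ 2

/-- powers -/
noncomputable def RP (s p : ℝ) (y : R3) : ℝ := rr s y ^ p

theorem rr_pos {s : ℝ} (hs : 0 < s) (y : R3) : 0 < rr s y := by
  unfold rr; positivity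

theorem RP_pos {s : ℝ} (hs : 0 < s) (p : ℝ) (y : R3) : 0 < RP s p y :=
  Real.rpow_pos_of_pos (rr_pos hs y) p

theorem rr_cd (s : ℝ) : ContDiff ℝ (⊤ : ℕ∞) (rr s) := by
  unfold rr
  fun_prop

theorem RP_cd {s : ℝ} (hs : 0 < s) (p : ℝ) : ContDiff ℝ (⊤ : ℕ∞) (RP s p) := by
  unfold RP
  exact (rr_cd s).rpow_const_of_ne (fun y => (rr_pos hs y).ne')

theorem hasfd_coord (i : Fin 3) (y : R3) :
    HasFDerivAt (fun z : R3 => z i) (ContinuousLinearMap.proj (R := ℝ) (φ := fun _ : Fin 3 => ℝ) i) y :=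
  (ContinuousLinearMap.proj (R := ℝ) (φ := fun _ : Fin 3 => ℝ) i).hasFDerivAt

theorem pd_coord (i j : Fin 3) (y : R3) : pd i (fun z => z j) y = if i = j then 1 else 0 := by
  unfold pd
  rw [(hasfd_coord j y).fderiv]
  simp only [ContinuousLinearMap.proj_apply, Pi.single_apply]
  by_cases h : i = j
  · subst h; simp
  · simp [h, Ne.symm h]

theorem pd_rr (s : ℝ) (i : Fin 3) (y : R3) : pd i (rr s) y = 2 * y i := by
  have h : HasFDerivAt (rr s) ((2 * y 0) • (ContinuousLinearMap.proj (R := ℝ) (φ := fun _ : Fin 3 => ℝ) 0)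
      + (2 * y 1) • (ContinuousLinearMap.proj (R := ℝ) (φ := fun _ : Fin 3 => ℝ) 1)
      + (2 * y 2) • (ContinuousLinearMap.proj (R := ℝ) (φ := fun _ : Fin 3 => ℝ) 2)) y := by
    have h0 := (hasfd_coord 0 y).pow 2
    have h1 := (hasfd_coord 1 y).pow 2
    have h2 := (hasfd_coord 2 y).pow 2
    have h3 := ((h0.add h1).add h2).add_const (s ^ 2)
    refine h3.congr_fderiv ?_
    ext
    simp
  unfold pd
  rw [h.fderiv]
  simp only [ContinuousLinearMap.add_apply, ContinuousLinearMap.smul_apply,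
    ContinuousLinearMap.proj_apply, smul_eq_mul, Pi.single_apply]
  fin_cases i <;> simp

theorem pd_RP {s : ℝ} (hs : 0 < s) (p : ℝ) (i : Fin 3) (y : R3) :
    pd i (RP s p) y = 2 * p * y i * RP s (p - 1) y := by
  have h := (((rr_cd s).differentiable (by norm_num)) y).hasFDerivAt
  have h2 := h.rpow_const (p := p) (Or.inl (rr_pos hs y).ne')
  have e : (fun z => rr s z ^ p) = RP s p := rfl
  rw [e] at h2
  unfold pd
  rw [h2.fderiv]
  simp only [ContinuousLinearMap.smul_apply, smul_eq_mul]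
  have h3 : fderiv ℝ (rr s) y (Pi.single i 1) = 2 * y i := pd_rr s i y
  rw [h3]
  unfold RP
  ring

theorem pd_mul {f g : R3 → ℝ} {y : R3} (hf : DifferentiableAt ℝ f y)
    (hg : DifferentiableAt ℝ g y) (i : Fin 3) :
    pd i (fun z => f z * g z) y = pd i f y * g y + f y * pd i g y := by
  unfold pd
  rw [fderiv_fun_mul hf hg]
  simp only [ContinuousLinearMap.add_apply, ContinuousLinearMap.smul_apply, smul_eq_mul]
  ring

theorem RP_sub_one {s : ℝ} (hs : 0 < s) (p : ℝ) (y : R3) :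
    rr s y * RP s (p - 1) y = RP s p y := by
  unfold RP
  have h := rr_pos hs y
  rw [Real.rpow_sub_one h.ne']
  field_simp

end Pool.Agent.Helper21.PW
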