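import Pool.Agent.Helper21.PW.Tls

/-!
PW, row MOR, part (D): the momentum of the weight is bounded by the kinetic energy.
-/

set_option autoImplicit false

namespace Pool.Agent.Helper21.PW

open MeasureTheory Filter
open Pool.Agent.Helper95.PW

theorem morD_pt {n : ℕ} {s : ℝ} (hs : 0 < s) (v : Cf n → ℝ) (x : Cf n) (hx : ∀ k, x k ≠ 0) :
    Pg (wt s) v x ^ 2 ≤
      n * ∑ k, (4 * (∑ i, dv k i v x ^ 2) + 3 * (v x ^ 2 / nr (x k) ^ 2)) := by
  unfold Pg
  have h1 := sq_sum_le_card_mul_sum_sq (s := (Finset.univ : Finset (Fin n)))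
    (f := fun k => (∑ i, pd i (wt s) (x k) * dv k i v x) + lap (wt s) (x k) / 2 * v x)
  rw [Finset.card_univ, Fintype.card_fin] at h1
  refine h1.trans (mul_le_mul_of_nonneg_left (Finset.sum_le_sum fun k _ => ?_) (Nat.cast_nonneg n))
  have ha : (∑ i, pd i (wt s) (x k) * dv k i v x) ^ 2 ≤ ∑ i, dv k i v x ^ 2 := by
    refine (Finset.sum_mul_sq_le_sq_mul_sq _ _ _).trans ?_
    have h := grd_wt hs (x k)
    have h0 : 0 ≤ ∑ i, dv k i v x ^ 2 := Finset.sum_nonneg fun i _ => sq_nonneg _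
    nlinarith
  have hb : (lap (wt s) (x k) / 2 * v x) ^ 2 ≤ 9 / 4 * (v x ^ 2 / nr (x k) ^ 2) := by
    have h := lap_wt_sq hs (x k)
    have h2 := rr_ge s (hx k)
    have h3 : lap (wt s) (x k) ^ 2 ≤ 9 * (1 / nr (x k) ^ 2) := h.trans (by linarith)
    have h4 := mul_le_mul_of_nonneg_right h3 (sq_nonneg (v x))
    calc (lap (wt s) (x k) / 2 * v x) ^ 2 = 1 / 4 * (lap (wt s) (x k) ^ 2 * v x ^ 2) := by ring
      _ ≤ 1 / 4 * (9 * (1 / nr (x k) ^ 2) * v x ^ 2) := by linarith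
      _ = 9 / 4 * (v x ^ 2 / nr (x k) ^ 2) := by ring
  generalize (∑ i, pd i (wt s) (x k) * dv k i v x) = a at ha ⊢
  generalize lap (wt s) (x k) / 2 * v x = b at hb ⊢
  generalize (∑ i, dv k i v x ^ 2) = A at ha ⊢
  generalize (v x ^ 2 / nr (x k) ^ 2) = B at hb ⊢
  nlinarith [sq_nonneg (3 * a - b)]

theorem morD (hHA : ST_HA1) {n : ℕ} {s : ℝ} (hs : 0 < s) {v : Cf n → ℝ}
    (hv : ContDiff ℝ (⊤ : ℕ∞) v) (hc : HasCompactSupport v) :
    ∫ x, Pg (fun y => Real.sqrt (nr y ^ 2 + s ^ 2)) v x ^ 2 ≤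
      16 * n * ∑ k, ∑ i, ∫ x, dv k i v x ^ 2 := by
  rw [← wt_eq]
  have hd : ∀ (k : Fin n) (i : Fin 3), Integrable (fun x => dv k i v x ^ 2) := fun k i => by
    have h := Pool.Agent.Helper2.PW.cs_dv k i hc
    have e : (fun x => dv k i v x ^ 2) = fun x => dv k i v x * dv k i v x := by
      funext x; ring
    rw [e]
    exact ((dv_cd k i hv).continuous.mul (dv_cd k i hv).continuous).integrable_of_hasCompactSupport
      h.mul_right
  have hP : Integrable (fun x => Pg (wt s) v x ^ 2) := by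
    have e : (fun x => Pg (wt s) v x ^ 2) = fun x => Pg (wt s) v x * Pg (wt s) v x := by
      funext x; ring
    rw [e]
    exact ((Pg_cd (wt_cd hs) hv).continuous.mul
      (Pg_cd (wt_cd hs) hv).continuous).integrable_of_hasCompactSupport (Pg_cs _ hc).mul_right
  have hds : ∀ k : Fin n, Integrable (fun x => ∑ i, dv k i v x ^ 2) := fun k =>
    integrable_finset_sum _ fun i _ => hd k i
  have hk : ∀ k : Fin n, Integrable (fun x => 4 * (∑ i, dv k i v x ^ 2) +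
      3 * (v x ^ 2 / nr (x k) ^ 2)) := fun k =>
    ((hds k).const_mul 4).add (((hHA n k v hv hc).1).const_mul 3)
  have hR : Integrable (fun x : Cf n => (n : ℝ) * ∑ k, (4 * (∑ i, dv k i v x ^ 2) +
      3 * (v x ^ 2 / nr (x k) ^ 2))) :=
    (integrable_finset_sum _ fun k _ => hk k).const_mul _
  have hae : ∀ᵐ x : Cf n, ∀ k, x k ≠ 0 := by
    rw [ae_all_iff]
    exact fun k => null_zero k
  have h1 : ∫ x, Pg (wt s) v x ^ 2 ≤ ∫ x, (n : ℝ) * ∑ k, (4 * (∑ i, dv k i v x ^ 2) +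
      3 * (v x ^ 2 / nr (x k) ^ 2)) := by
    apply integral_mono_ae hP hR
    filter_upwards [hae] with x hx
    exact morD_pt hs v x hx
  refine h1.trans ?_
  rw [integral_const_mul, integral_finset_sum _ fun k _ => hk k]
  have h2 : ∀ k : Fin n, ∫ x, (4 * (∑ i, dv k i v x ^ 2) + 3 * (v x ^ 2 / nr (x k) ^ 2)) ≤
      16 * ∑ i, ∫ x, dv k i v x ^ 2 := fun k => by
    rw [integral_add ((hds k).const_mul 4) (((hHA n k v hv hc).1).const_mul 3),
      integral_const_mul, integral_const_mul]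
    have h := (hHA n k v hv hc).2
    rw [integral_finset_sum _ fun i _ => hd k i] at h ⊢
    linarith
  calc (n : ℝ) * ∑ k, ∫ x, (4 * (∑ i, dv k i v x ^ 2) + 3 * (v x ^ 2 / nr (x k) ^ 2))
      ≤ n * ∑ k, 16 * ∑ i, ∫ x, dv k i v x ^ 2 :=
        mul_le_mul_of_nonneg_left (Finset.sum_le_sum fun k _ => h2 k) (Nat.cast_nonneg n)
    _ = 16 * n * ∑ k, ∑ i, ∫ x, dv k i v x ^ 2 := by
        rw [← Finset.mul_sum]; ring

/-- all spins -/
theorem morD_sq (hHA : ST_HA1) {n : ℕ} {s : ℝ} (hs : 0 < s) {u : Wf n} (hu : Sm u) :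
    Pool.Agent.Helper95.PW.sq (fun t => Pg (fun y => Real.sqrt (nr y ^ 2 + s ^ 2)) (u t)) ≤
      16 * n * kin u := by
  unfold kin Pool.Agent.Helper95.PW.sq
  have h : ∀ t, ∫ x, Pg (fun y => Real.sqrt (nr y ^ 2 + s ^ 2)) (u t) x ^ 2 ≤
      16 * n * ∑ k, ∑ i, ∫ x, dv k i (u t) x ^ 2 := fun t => morD hHA hs (hu t).1 (hu t).2
  refine (Finset.sum_le_sum fun t _ => h t).trans_eq ?_
  rw [← Finset.mul_sum]
  congr 1
  rw [Finset.sum_comm]
  refine Finset.sum_congr rfl fun k _ => ?_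
  rw [Finset.sum_comm]

end Pool.Agent.Helper21.PW
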