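import Pool.Agent.Helper21.PW.Tls

/-!
PW: the virial identity of a smooth potential.
-/

set_option autoImplicit false

namespace Pool.Agent.Helper21.PW

open MeasureTheory Filter
open Pool.Agent.Helper95.PW

theorem dv_mul {n : ℕ} (k : Fin n) (i : Fin 3) {f g : Cf n → ℝ} {x : Cf n}
    (hf : DifferentiableAt ℝ f x) (hg : DifferentiableAt ℝ g x) :
    dv k i (fun z => f z * g z) x = dv k i f x * g x + f x * dv k i g x := by
  unfold dv
  rw [fderiv_fun_mul hf hg]
  simp only [ContinuousLinearMap.add_apply, ContinuousLinearMap.smul_apply, smul_eq_mul]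
  ring

theorem dir_sum {n : ℕ} (W : Cf n → ℝ) (x V : Cf n) :
    ∑ k, ∑ i, V k i * dv k i W x = fderiv ℝ W x V := by
  have hV : V = ∑ k, ∑ i, V k i • (Pi.single k (Pi.single i 1) : Cf n) := by
    have h1 : ∀ k, ∑ i, V k i • (Pi.single k (Pi.single i 1) : Cf n) = Pi.single k (V k) := by
      intro k
      funext a b
      simp only [Finset.sum_apply, Pi.smul_apply, smul_eq_mul, Fin.sum_univ_three]
      by_cases h : a = k
      · subst h
        simp only [Pi.single_eq_same]
        fin_cases b <;> simp
      · simp [h]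
    simp only [h1]
    exact (Finset.univ_sum_single V).symm
  conv_rhs => rw [hV]
  simp only [map_sum, map_smul, smul_eq_mul]
  rfl

theorem dv_cp {n : ℕ} (k : Fin n) (i : Fin 3) {h : R3 → ℝ} (hh : ContDiff ℝ (⊤ : ℕ∞) h)
    (x : Cf n) : dv k i (fun z : Cf n => h (z k)) x = pd i h (x k) := by
  have h1 : HasFDerivAt (fun z : Cf n => z k)
      (ContinuousLinearMap.proj (R := ℝ) (φ := fun _ : Fin n => R3) k) x :=
    (ContinuousLinearMap.proj (R := ℝ) (φ := fun _ : Fin n => R3) k).hasFDerivAt
  have h2 := ((hh.differentiable (by norm_num)) (x k)).hasFDerivAt.comp x h1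
  have e : (h ∘ fun z : Cf n => z k) = fun z : Cf n => h (z k) := rfl
  rw [e] at h2
  unfold dv pd
  rw [h2.fderiv]
  simp

/-- virial identity -/
theorem pot_id {n : ℕ} {W : Cf n → ℝ} {w : R3 → ℝ} {v : Cf n → ℝ}
    (hW : ContDiff ℝ (⊤ : ℕ∞) W) (hw : ContDiff ℝ (⊤ : ℕ∞) w)
    (hv : ContDiff ℝ (⊤ : ℕ∞) v) (hc : HasCompactSupport v) :
    ∫ x, W x * (v x * Pg w v x) =
      -(1 / 2) * ∫ x, (fderiv ℝ W x (fun k i => pd i w (x k))) * v x ^ 2 := by
  have dW : Differentiable ℝ W := hW.differentiable (by norm_num)
  have dV : Differentiable ℝ v := hv.differentiable (by norm_num)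
  have hF : ∀ (k : Fin n) (i : Fin 3), ContDiff ℝ (⊤ : ℕ∞) (fun x : Cf n => pd i w (x k)) :=
    fun k i => cp_cd k (pd_cd i hw)
  have dF : ∀ (k : Fin n) (i : Fin 3), Differentiable ℝ (fun x : Cf n => pd i w (x k)) :=
    fun k i => (hF k i).differentiable (by norm_num)
  have ig : ∀ {h : Cf n → ℝ}, Continuous h → Integrable (fun x => v x * h x) := fun {h} hh =>
    (hv.continuous.mul hh).integrable_of_hasCompactSupport hc.mul_right
  have key : ∀ (k : Fin n) (i : Fin 3),
      ∫ x, W x * (v x * (pd i w (x k) * dv k i v x + pd i (pd i w) (x k) / 2 * v x)) =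
        -(1 / 2) * ∫ x, (pd i w (x k) * dv k i W x) * v x ^ 2 := by
    intro k i
    have h := Pool.Agent.Helper2.PW.ibp_gen k i v (fun x => v x * (pd i w (x k) * W x))
      (hv.of_le (by exact_mod_cast le_top))
      ((hv.mul ((hF k i).mul hW)).of_le (by exact_mod_cast le_top)) (Or.inl hc)
    have e : ∀ x, dv k i (fun x => v x * (pd i w (x k) * W x)) x =
        dv k i v x * (pd i w (x k) * W x) +
          v x * (pd i (pd i w) (x k) * W x + pd i w (x k) * dv k i W x) := by
      intro x
      have hd : DifferentiableAt ℝ (fun x => pd i w (x k) * W x) x := ((dF k i) x).mul (dW x)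
      rw [dv_mul k i (dV x) hd, dv_mul k i (dF k i x) (dW x), dv_cp k i (pd_cd i hw)]
    simp only [e] at h
    have i1 : Integrable (fun x => v x * (dv k i v x * (pd i w (x k) * W x))) :=
      ig ((dv_cd k i hv).continuous.mul (((hF k i).continuous).mul hW.continuous))
    have i2 : Integrable (fun x => v x * (v x * (pd i (pd i w) (x k) * W x))) :=
      ig (hv.continuous.mul (((cp_cd k (pd_cd i (pd_cd i hw))).continuous).mul hW.continuous))
    have i3 : Integrable (fun x => v x * (v x * (pd i w (x k) * dv k i W x))) :=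
      ig (hv.continuous.mul (((hF k i).continuous).mul (dv_cd k i hW).continuous))
    have h1 : ∫ x, dv k i v x * (v x * (pd i w (x k) * W x)) =
        ∫ x, v x * (dv k i v x * (pd i w (x k) * W x)) :=
      integral_congr_ae (Eventually.of_forall fun x => by ring)
    have h2 : ∫ x, v x * (dv k i v x * (pd i w (x k) * W x) +
          v x * (pd i (pd i w) (x k) * W x + pd i w (x k) * dv k i W x)) =
        (∫ x, v x * (dv k i v x * (pd i w (x k) * W x))) +
          ((∫ x, v x * (v x * (pd i (pd i w) (x k) * W x))) +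
            ∫ x, v x * (v x * (pd i w (x k) * dv k i W x))) := by
      have i23 : Integrable (fun x => v x * (v x * (pd i (pd i w) (x k) * W x)) +
          v x * (v x * (pd i w (x k) * dv k i W x))) := i2.add i3
      rw [← integral_add i2 i3, ← integral_add i1 i23]
      exact integral_congr_ae (Eventually.of_forall fun x => by simp only; ring)
    have h3 : ∫ x, W x * (v x * (pd i w (x k) * dv k i v x + pd i (pd i w) (x k) / 2 * v x)) =
        (∫ x, v x * (dv k i v x * (pd i w (x k) * W x))) +
          (1 / 2) * ∫ x, v x * (v x * (pd i (pd i w) (x k) * W x)) := by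
      rw [← integral_const_mul, ← integral_add i1 (i2.const_mul _)]
      exact integral_congr_ae (Eventually.of_forall fun x => by simp only; ring)
    have h4 : ∫ x, (pd i w (x k) * dv k i W x) * v x ^ 2 =
        ∫ x, v x * (v x * (pd i w (x k) * dv k i W x)) :=
      integral_congr_ae (Eventually.of_forall fun x => by simp only; ring)
    rw [h1, h2] at h
    rw [h3, h4]
    linarith
  have iL : ∀ (k : Fin n) (i : Fin 3), Integrable (fun x => W x * (v x *
      (pd i w (x k) * dv k i v x + pd i (pd i w) (x k) / 2 * v x))) := fun k i => by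
    have h := ig (h := fun x => W x * (pd i w (x k) * dv k i v x +
      pd i (pd i w) (x k) / 2 * v x))
      (hW.continuous.mul (((hF k i).continuous.mul (dv_cd k i hv).continuous).add
      (((cp_cd k (pd_cd i (pd_cd i hw))).continuous.div_const 2).mul hv.continuous)))
    refine h.congr (Eventually.of_forall fun x => ?_)
    simp only
    ring
  have iR : ∀ (k : Fin n) (i : Fin 3), Integrable (fun x => (pd i w (x k) * dv k i W x) *
      v x ^ 2) := fun k i => by
    have h := ig (h := fun x => v x * (pd i w (x k) * dv k i W x))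
      (hv.continuous.mul (((hF k i).continuous).mul (dv_cd k i hW).continuous))
    refine h.congr (Eventually.of_forall fun x => ?_)
    simp only
    ring
  have e1 : ∀ x, W x * (v x * Pg w v x) = ∑ k, ∑ i, W x * (v x *
      (pd i w (x k) * dv k i v x + pd i (pd i w) (x k) / 2 * v x)) := by
    intro x
    unfold Pg lap
    rw [Finset.mul_sum, Finset.mul_sum]
    refine Finset.sum_congr rfl fun k _ => ?_
    simp only [Fin.sum_univ_three]
    ring
  have e2 : ∀ x, (fderiv ℝ W x (fun k i => pd i w (x k))) * v x ^ 2 =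
      ∑ k, ∑ i, (pd i w (x k) * dv k i W x) * v x ^ 2 := by
    intro x
    rw [← dir_sum, Finset.sum_mul]
    refine Finset.sum_congr rfl fun k _ => ?_
    rw [Finset.sum_mul]
  simp only [e1, e2]
  rw [integral_finset_sum _ fun k _ => integrable_finset_sum _ fun i _ => iL k i,
    integral_finset_sum _ fun k _ => integrable_finset_sum _ fun i _ => iR k i, Finset.mul_sum]
  refine Finset.sum_congr rfl fun k _ => ?_
  rw [integral_finset_sum _ fun i _ => iL k i, integral_finset_sum _ fun i _ => iR k i,
    Finset.mul_sum]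
  exact Finset.sum_congr rfl fun i _ => key k i

end Pool.Agent.Helper21.PW
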