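import Pool.Agent.Helper21.PW.Der

/-!
PW: the weight `w = (|y|^2 + s^2)^(1/2)`: gradient, Hessian, Laplacian, bilaplacian.
-/

set_option autoImplicit false

namespace Pool.Agent.Helper21.PW

open MeasureTheory Filter
open Pool.Agent.Helper95.PW

/-- the weight -/
noncomputable def wt (s : ℝ) : R3 → ℝ := RP s (1 / 2)

theorem wt_cd {s : ℝ} (hs : 0 < s) : ContDiff ℝ (⊤ : ℕ∞) (wt s) := RP_cd hs _

theorem RP_da {s : ℝ} (hs : 0 < s) (p : ℝ) (y : R3) : DifferentiableAt ℝ (RP s p) y :=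
  ((RP_cd hs p).differentiable (by norm_num)) y

theorem co_da (i : Fin 3) (y : R3) : DifferentiableAt ℝ (fun z : R3 => z i) y :=
  (hasfd_coord i y).differentiableAt

theorem pd_const_mul {g : R3 → ℝ} {y : R3} (c : ℝ) (hg : DifferentiableAt ℝ g y) (i : Fin 3) :
    pd i (fun z => c * g z) y = c * pd i g y := by
  unfold pd
  rw [fderiv_const_mul hg]
  simp

theorem pd_add {f g : R3 → ℝ} {y : R3} (hf : DifferentiableAt ℝ f y)
    (hg : DifferentiableAt ℝ g y) (i : Fin 3) :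
    pd i (fun z => f z + g z) y = pd i f y + pd i g y := by
  unfold pd
  rw [fderiv_fun_add hf hg]
  simp

theorem pd_wt {s : ℝ} (hs : 0 < s) (i : Fin 3) : pd i (wt s) = fun y => y i * RP s (-(1 / 2)) y := by
  funext y
  unfold wt
  rw [pd_RP hs]
  have : (1 / 2 - 1 : ℝ) = -(1 / 2) := by norm_num
  rw [this]; ring

theorem pd_pd_wt {s : ℝ} (hs : 0 < s) (i j : Fin 3) : pd i (pd j (wt s)) = fun y =>
    (if i = j then 1 else 0) * RP s (-(1 / 2)) y - y i * y j * RP s (-(3 / 2)) y := by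
  funext y
  rw [pd_wt hs, pd_mul (co_da j y) (RP_da hs _ y), pd_coord, pd_RP hs]
  have : (-(1 / 2) - 1 : ℝ) = -(3 / 2) := by norm_num
  rw [this]; ring

theorem rr_eq (s : ℝ) (y : R3) : y 0 * y 0 + y 1 * y 1 + y 2 * y 2 = rr s y - s ^ 2 := by
  unfold rr; ring

theorem lap_wt {s : ℝ} (hs : 0 < s) : lap (wt s) = fun y =>
    2 * RP s (-(1 / 2)) y + s ^ 2 * RP s (-(3 / 2)) y := by
  funext y
  unfold lap
  rw [Fin.sum_univ_three]
  simp only [pd_pd_wt hs, if_true]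
  have h := RP_sub_one hs (-(1 / 2)) y
  have e : (-(1 / 2) - 1 : ℝ) = -(3 / 2) := by norm_num
  rw [e] at h
  have h2 := rr_eq s y
  linear_combination (-1 : ℝ) * RP s (-(3 / 2)) y * h2 - h

theorem pd_lap_wt {s : ℝ} (hs : 0 < s) (i : Fin 3) : pd i (lap (wt s)) = fun y =>
    y i * (-2 * RP s (-(3 / 2)) y + (-3 * s ^ 2) * RP s (-(5 / 2)) y) := by
  funext y
  rw [lap_wt hs, pd_add ((RP_da hs _ y).const_mul _) ((RP_da hs _ y).const_mul _),
    pd_const_mul _ (RP_da hs _ y), pd_const_mul _ (RP_da hs _ y), pd_RP hs, pd_RP hs]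
  have e : (-(1 / 2) - 1 : ℝ) = -(3 / 2) := by norm_num
  have e2 : (-(3 / 2) - 1 : ℝ) = -(5 / 2) := by norm_num
  rw [e, e2]; ring

theorem pd_pd_lap_wt {s : ℝ} (hs : 0 < s) (i : Fin 3) : pd i (pd i (lap (wt s))) = fun y =>
    (-2 * RP s (-(3 / 2)) y + (-3 * s ^ 2) * RP s (-(5 / 2)) y) +
      y i * y i * (6 * RP s (-(5 / 2)) y + 15 * s ^ 2 * RP s (-(7 / 2)) y) := by
  funext y
  have hd : DifferentiableAt ℝ (fun y => -2 * RP s (-(3 / 2)) y + -3 * s ^ 2 * RP s (-(5 / 2)) y) y :=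
    ((RP_da hs _ y).const_mul _).add ((RP_da hs _ y).const_mul _)
  rw [pd_lap_wt hs, pd_mul (co_da i y) hd, pd_coord, pd_add ((RP_da hs _ y).const_mul _) ((RP_da hs _ y).const_mul _),
    pd_const_mul _ (RP_da hs _ y), pd_const_mul _ (RP_da hs _ y), pd_RP hs, pd_RP hs]
  have e : (-(3 / 2) - 1 : ℝ) = -(5 / 2) := by norm_num
  have e2 : (-(5 / 2) - 1 : ℝ) = -(7 / 2) := by norm_num
  rw [e, e2]; simp; ring

/-- the bilaplacian -/
theorem bilap {s : ℝ} (hs : 0 < s) (y : R3) :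
    ∑ i, pd i (pd i (lap (wt s))) y = -(15 * s ^ 4 * RP s (-(7 / 2)) y) := by
  rw [Fin.sum_univ_three]
  simp only [pd_pd_lap_wt hs]
  have h := RP_sub_one hs (-(3 / 2)) y
  have e : (-(3 / 2) - 1 : ℝ) = -(5 / 2) := by norm_num
  rw [e] at h
  have h' := RP_sub_one hs (-(5 / 2)) y
  have e' : (-(5 / 2) - 1 : ℝ) = -(7 / 2) := by norm_num
  rw [e'] at h'
  have h2 := rr_eq s y
  linear_combination (6 * RP s (-(5 / 2)) y + 15 * s ^ 2 * RP s (-(7 / 2)) y) * h2 + 6 * h + 15 * s ^ 2 * h'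

theorem nr_sq (y : R3) : nr y ^ 2 = y 0 ^ 2 + y 1 ^ 2 + y 2 ^ 2 := by
  unfold nr
  rw [Real.sq_sqrt (by positivity)]

theorem mor_eq {s : ℝ} (hs : 0 < s) (y : R3) : mor s y = 15 / 2 * s ^ 4 * RP s (-(7 / 2)) y := by
  unfold mor RP
  have h : nr y ^ 2 + s ^ 2 = rr s y := by rw [nr_sq]; rfl
  rw [h, Real.rpow_neg (rr_pos hs y).le]
  rfl

theorem wt_eq {s : ℝ} : wt s = fun y => Real.sqrt (nr y ^ 2 + s ^ 2) := by
  funext y
  have h : nr y ^ 2 + s ^ 2 = rr s y := by rw [nr_sq]; rfl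
  rw [h, Real.sqrt_eq_rpow]
  rfl

/-- the Hessian is nonnegative -/
theorem hess_nn {s : ℝ} (hs : 0 < s) (y : R3) (a : Fin 3 → ℝ) :
    0 ≤ ∑ i, ∑ j, pd i (pd j (wt s)) y * (a i * a j) := by
  simp only [pd_pd_wt hs, Fin.sum_univ_three]
  have h := RP_sub_one hs (-(1 / 2)) y
  have e : (-(1 / 2) - 1 : ℝ) = -(3 / 2) := by norm_num
  rw [e] at h
  have hp := (RP_pos hs (-(3 / 2)) y).le
  simp only [Fin.isValue, if_true]
  have e1 : ((0 : Fin 3) = 1) = False := by simp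
  have e2 : ((0 : Fin 3) = 2) = False := by simp
  have e3 : ((1 : Fin 3) = 0) = False := by simp
  have e4 : ((1 : Fin 3) = 2) = False := by simp
  have e5 : ((2 : Fin 3) = 0) = False := by simp
  have e6 : ((2 : Fin 3) = 1) = False := by simp
  simp only [e1, e2, e3, e4, e5, e6, if_false]
  have key : 0 ≤ RP s (-(3 / 2)) y * ((rr s y) * (a 0 ^ 2 + a 1 ^ 2 + a 2 ^ 2) -
      (y 0 * a 0 + y 1 * a 1 + y 2 * a 2) ^ 2) := by
    apply mul_nonneg hp
    unfold rr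
    nlinarith [sq_nonneg (y 0 * a 1 - y 1 * a 0), sq_nonneg (y 0 * a 2 - y 2 * a 0),
      sq_nonneg (y 1 * a 2 - y 2 * a 1), mul_nonneg (sq_nonneg s) (add_nonneg (add_nonneg (sq_nonneg (a 0)) (sq_nonneg (a 1))) (sq_nonneg (a 2)))]
  refine key.trans_eq ?_
  linear_combination (a 0 ^ 2 + a 1 ^ 2 + a 2 ^ 2) * h

end Pool.Agent.Helper21.PW
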